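import Pool.Agent.Y554.SN.Stm3
import Pool.Agent.Y197.NW.Fin
import Pool.Agent.H389R2.NS.QHit

/-! Project SN: lower bound for the total influence of the crossing of the square. -/

set_option autoImplicit false

namespace Pool.Agent.Y38.SN

open H974 H12S H389NS Finset

/-- The first moment of the spectral sample. -/
theorem first (V : Finset Edg) (I J : Set Vtx) :
    ∑ T ∈ V.powerset, (wal V (fC I J) T) ^ 2 * (T.card : ℝ) =
      (1 / 4) * ∑ e ∈ V, PQ (1 / 2) V (fun F => Pv I J e ↑F) := by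
  have h0 : ∀ T, sp hp V V (fC I J) T = (wal V (fC I J) T) ^ 2 := by
    intro T
    unfold sp
    rw [Finset.sdiff_self, Ex_empty]
    simp only [Finset.empty_union]
  have h1 : ∀ e ∈ V, ∑ T ∈ V.powerset.filter (fun T => e ∈ T), (wal V (fC I J) T) ^ 2 =
      (1 / 4) * PQ (1 / 2) V (fun F => Pv I J e ↑F) := by
    intro e he
    have h2 := sum_sp_mem (p := hp) (S := V) (V := V) (W := ∅) subset_rfl (fun _ _ => rfl)
      (empty_subset _) (fC I J) (e := e) (by simpa using he)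
    rw [sdiff_empty] at h2
    rw [← Finset.sum_congr rfl (fun T _ => h0 T), h2, QH.UU_dif]
    congr 1
    unfold UA UU PQ Pr
    rw [sdiff_empty]
    refine Ex_congr (fun F _ => ?_)
    rw [Ex_empty, union_empty]
    show (ind (Pv I J e (↑F : Set Edg))) ^ 2 = ind (Pv I J e (↑F : Set Edg))
    by_cases h : Pv I J e (↑F : Set Edg)
    · rw [ind_of h]; norm_num
    · rw [ind_not_of h]; norm_num
  rw [Finset.mul_sum, ← Finset.sum_congr rfl h1]
  have h3 : ∀ T ∈ V.powerset, (wal V (fC I J) T) ^ 2 * (T.card : ℝ) =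
      ∑ e ∈ V, if e ∈ T then (wal V (fC I J) T) ^ 2 else 0 := by
    intro T hT
    rw [Finset.sum_ite_mem, Finset.inter_eq_right.2 (mem_powerset.1 hT), Finset.sum_const,
      nsmul_eq_mul, mul_comm]
  rw [Finset.sum_congr rfl h3, Finset.sum_comm]
  refine Finset.sum_congr rfl (fun e _ => ?_)
  rw [Finset.sum_filter]

/-- The change is at most `(1 - x) / 4` times the total influence. -/
theorem D2_inf {w h : ℕ} (hw : 1 ≤ w) {x : ℝ} (h0 : 0 ≤ x) :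
    Pool.Agent.Y197.NW.D2 w h x ≤ (1 - x) * ((1 / 4) * ∑ e ∈ RE 0 (w:ℤ) 0 h,
      PQ (1 / 2) (RE 0 (w:ℤ) 0 h) (fun F => Pv (lsd 0 0 h) (lsd w 0 h) e ↑F)) := by
  rw [← first]
  unfold Pool.Agent.Y197.NW.D2
  rw [← Pool.Agent.Y197.NW.V2_one (h := h) hw, Pool.Agent.Y197.NW.V2_sum,
    Pool.Agent.Y197.NW.V2_sum, ← Finset.sum_sub_distrib, Finset.mul_sum]
  refine Finset.sum_le_sum (fun T _ => ?_)
  have e1 : Pool.Agent.Y197.NW.fR w h = fC (lsd 0 0 h) (lsd w 0 h) := rfl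
  rw [e1, one_pow]
  obtain ⟨a, ha⟩ : ∃ a : ℝ, a = (wal (RE 0 (w:ℤ) 0 h) (fC (lsd 0 0 h) (lsd w 0 h)) T) ^ 2 :=
    ⟨_, rfl⟩
  have ha0 : 0 ≤ a := by rw [ha]; exact sq_nonneg _
  rw [← ha]
  have h2 := one_add_mul_le_pow (show (-2:ℝ) ≤ x - 1 by linarith) T.card
  rw [add_sub_cancel] at h2
  nlinarith

theorem inf : Pool.Agent.Y554.SN.S_INF := by
  obtain ⟨c, C, hc, hC, hwin⟩ := Pool.Agent.Y197.NW.window 1 le_rfl
  refine ⟨4 * c, by positivity, ?_⟩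
  intro n hn
  obtain ⟨w, hw⟩ : ∃ w : ℕ, w = 2 * n := ⟨_, rfl⟩
  have hw2 : 2 ≤ w := by omega
  have hw0 : (0:ℝ) < w := by exact_mod_cast (show 0 < w by omega)
  have hn0 : (0:ℝ) < n := by exact_mod_cast hn
  obtain ⟨t, ht⟩ : ∃ t : ℝ, t = (w:ℝ) ^ (-(3/4) : ℝ) := ⟨_, rfl⟩
  have ht0 : 0 < t := by rw [ht]; positivity
  have htw : t * (w:ℝ) ^ (3/4 : ℝ) = 1 := by
    rw [ht, ← Real.rpow_add hw0]; norm_num
  have h1 := (hwin w w hw2 (by omega) (by omega) t ht0).1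
  rw [htw, min_self, mul_one] at h1
  have h2 := h1.trans (D2_inf (w := w) (h := w) (by omega) (Real.exp_pos (-t)).le)
  have h3 : 1 - Real.exp (-t) ≤ t := by linarith [Real.add_one_le_exp (-t)]
  obtain ⟨s1, hs1⟩ : ∃ s : ℝ, s = ∑ e ∈ RE 0 (w:ℤ) 0 w,
      PQ (1 / 2) (RE 0 (w:ℤ) 0 w) (fun F => Pv (lsd 0 0 w) (lsd w 0 w) e ↑F) := ⟨_, rfl⟩
  rw [← hs1] at h2
  have hs0 : 0 ≤ s1 := by
    rw [hs1]
    refine Finset.sum_nonneg (fun e _ => ?_)
    exact Ex_nonneg SSx.hp_ok (fun F _ => ind_nonneg _)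
  have h4 : c ≤ t * ((1 / 4) * s1) :=
    h2.trans (mul_le_mul_of_nonneg_right h3 (by positivity))
  have h5 : 4 * c * (w:ℝ) ^ (3/4 : ℝ) ≤ s1 := by
    have h6 : 0 ≤ (w:ℝ) ^ (3/4 : ℝ) := by positivity
    have h7 := mul_le_mul_of_nonneg_right h4 h6
    have h8 : t * ((1 / 4) * s1) * (w:ℝ) ^ (3/4 : ℝ) = (1 / 4) * s1 := by
      calc t * ((1 / 4) * s1) * (w:ℝ) ^ (3/4 : ℝ) = (t * (w:ℝ) ^ (3/4 : ℝ)) * ((1/4) * s1) := by
            ring
        _ = _ := by rw [htw, one_mul]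
    rw [h8] at h7
    linarith
  have h9 : (n:ℝ) ^ (3/4 : ℝ) ≤ (w:ℝ) ^ (3/4 : ℝ) :=
    Real.rpow_le_rpow hn0.le (by exact_mod_cast (show n ≤ w by omega)) (by norm_num)
  have h10 : 4 * c * (n:ℝ) ^ (3/4 : ℝ) ≤ s1 :=
    (mul_le_mul_of_nonneg_left h9 (by positivity)).trans h5
  -- the translation
  have eS : RE 0 (w:ℤ) 0 w = (trl n n).mp (boxE n) := by
    unfold boxE
    rw [trl_RE]
    congr 1
    · ring
    · rw [hw]; push_cast; ring
    · ring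
    · rw [hw]; push_cast; ring
  have e2 : lsd (0:ℤ) 0 w = (trl n n).ψ '' Pool.Agent.Y554.SN.Lf n := by
    unfold Pool.Agent.Y554.SN.Lf
    rw [← Pool.Agent.Y197.NW.lsd_im]
    congr 1
    · ring
    · ring
    · rw [hw]; push_cast; ring
  have e3 : lsd (w:ℤ) 0 w = (trl n n).ψ '' Pool.Agent.Y554.SN.Rt n := by
    unfold Pool.Agent.Y554.SN.Rt
    rw [← Pool.Agent.Y197.NW.lsd_im]
    congr 1
    · rw [hw]; push_cast; ring
    · ring
    · rw [hw]; push_cast; ring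
  refine h10.trans (le_of_eq ?_)
  rw [hs1, eS, e2, e3]
  unfold LSym.mp
  rw [Finset.sum_map]
  refine Finset.sum_congr rfl (fun e _ => ?_)
  have e4 := LSym.pr (trl n n) (1 / 2) (boxE n)
    (fun F => Pv ((trl n n).ψ '' Pool.Agent.Y554.SN.Lf n)
      ((trl n n).ψ '' Pool.Agent.Y554.SN.Rt n) ((trl n n).φ e) ↑F)
  unfold PQ
  refine e4.trans ?_
  congr 1
  funext F
  rw [(trl n n).coe_mp F]
  exact propext (it_pv (trl n n))

end Pool.Agent.Y38.SN
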